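import Mathlib.RingTheory.Valuation.ValuationSubring
import Mathlib.ModelTheory.Definability

/-!
Definitions for Hensel minimality (equicharacteristic zero), following the problem statement.
-/

open FirstOrder

universe u v w

namespace Pool.Agent.MP_0e4269_lc

/-- `x` and `y` have the same image in `RV_lam = K^× / (1 + B_{<lam}(0)) ∪ {0}`. -/
def RVEq {K : Type w} [Field K] (O : ValuationSubring K) (lam : O.ValueGroup) (x y : K) : Prop :=
  ∃ e : K, O.valuation e < lam ∧ x = y * (1 + e)

/-- `X` is `lam`-prepared by `C`. -/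
def Prepares {K : Type w} [Field K] (O : ValuationSubring K) (lam : O.ValueGroup)
    (C X : Set K) : Prop :=
  ∀ x x' : K, (∀ c ∈ C, RVEq O lam (x - c) (x' - c)) → (x ∈ X ↔ x' ∈ X)

/-- `X` is definable with parameters from `A`, from `RV = RV_1`, and `m` parameters from
`RV_lam`: it is the fibre of an `A`-definable set over representatives `b`, `c` of these
imaginary parameters, whatever representatives are chosen. -/
def DefinableRV (L : FirstOrder.Language.{u, v}) {K : Type w} [Field K] [L.Structure K]
    (O : ValuationSubring K) (lam : O.ValueGroup) (A : Set K) (m : ℕ) (X : Set K) : Prop :=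
  ∃ (n : ℕ) (b : Fin n → K) (c : Fin m → K) (S : Set (Unit ⊕ Fin n ⊕ Fin m → K)),
    A.Definable L S ∧
    ∀ (b' : Fin n → K) (c' : Fin m → K),
      (∀ i, RVEq O 1 (b' i) (b i)) → (∀ j, RVEq O lam (c' j) (c j)) →
      X = {x | Sum.elim (fun _ => x) (Sum.elim b' c') ∈ S}

/-- The `L`-structure `K` is a valued field of equicharacteristic zero with valuation ring `O`,
the symbols `add`, `mul`, `o` of `L` are interpreted as `+`, `*`, `O`, and `K` satisfies `T`. -/
def IsModel (L : FirstOrder.Language.{u, v}) (add mul : L.Functions 2) (o : L.Relations 1) (T : L.Theory)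
    (K : Type w) [Field K] [L.Structure K] (O : ValuationSubring K) : Prop :=
  (∀ x y : K, FirstOrder.Language.Structure.funMap add ![x, y] = x + y) ∧
  (∀ x y : K, FirstOrder.Language.Structure.funMap mul ![x, y] = x * y) ∧
  (∀ x : K, FirstOrder.Language.Structure.RelMap o ![x] ↔ x ∈ O) ∧
  CharZero K ∧ CharZero (IsLocalRing.ResidueField O) ∧ K ⊨ T

/-- `T` is `ell`-h-minimal, where `ell = ⊤` stands for `ω`. -/
def HMinimal (L : FirstOrder.Language.{u, v}) (add mul : L.Functions 2) (o : L.Relations 1) (T : L.Theory)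
    (ell : ℕ∞) : Prop :=
  ∀ (K : Type w) [Field K] [L.Structure K] (O : ValuationSubring K), IsModel L add mul o T K O →
    ∀ lam : O.ValueGroup, lam ≠ 0 → lam ≤ 1 →
    ∀ (A : Set K) (m : ℕ), (m : ℕ∞) ≤ ell →
    ∀ X : Set K, DefinableRV L O lam A m X →
      ∃ C : Set K, C.Finite ∧ A.Definable₁ L C ∧ Prepares O lam C X

end Pool.Agent.MP_0e4269_lc
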