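import Mathlib.Tactic.Monotonicity.Lemmas
import Mathlib.Order.Filter.FilterProduct
import Mathlib.ModelTheory.Ultraproducts
import Mathlib.RingTheory.SimpleRing.Principal
import Mathlib.Order.CompletePartialOrder
import Mathlib.RingTheory.Henselian
import Mathlib.RingTheory.RegularLocalRing.Defs
import Pool.Agent.MP_0e4269_lc.Defs

-- ======== part 0: formerly Pool.Agent.MP_0e4269_lc.Basic
section MrgPart0

/-!
Valued field basics and closure properties of sets definable with parameters from `A` and `RV`.
-/

set_option linter.unusedSectionVars false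

open FirstOrder Set

universe u v w

namespace Pool.Agent.MP_0e4269_lc

section Val

variable {K : Type w} [Field K] {O : ValuationSubring K}

/-- A handier form of `RVEq`. -/
def R (O : ValuationSubring K) (lam : O.ValueGroup) (x y : K) : Prop :=
  x = y ∨ O.valuation (x - y) < lam * O.valuation y

theorem rveq_iff {lam : O.ValueGroup} (h0 : lam ≠ 0) {x y : K} :
    RVEq O lam x y ↔ R O lam x y := by
  constructor
  · rintro ⟨e, he, rfl⟩
    by_cases hy : y = 0
    · left; simp [hy]
    · right
      have : y * (1 + e) - y = e * y := by ring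
      rw [this, map_mul]
      exact mul_lt_mul_of_pos_right he (by simpa [zero_lt_iff] using hy)
  · rintro (rfl | h)
    · exact ⟨0, by simpa [zero_lt_iff] using h0, by simp⟩
    · have hy : y ≠ 0 := by
        rintro rfl
        simp at h
      refine ⟨(x - y) / y, ?_, by field_simp; ring⟩
      rw [map_div₀, div_lt_iff₀ (by simpa [zero_lt_iff] using hy)]
      exact h

theorem R.refl (lam : O.ValueGroup) (x : K) : R O lam x x := Or.inl rfl

theorem R.val_eq {lam : O.ValueGroup} (h1 : lam ≤ 1) {x y : K} (h : R O lam x y) :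
    O.valuation x = O.valuation y := by
  rcases h with rfl | h
  · rfl
  · have h2 : O.valuation (x - y) < O.valuation y :=
      lt_of_lt_of_le h (by simpa using mul_le_mul_left h1 (O.valuation y))
    have := Valuation.map_add_eq_of_lt_left O.valuation h2
    simpa using this

theorem R.symm {lam : O.ValueGroup} (h1 : lam ≤ 1) {x y : K} (h : R O lam x y) :
    R O lam y x := by
  have hv := h.val_eq h1
  rcases h with rfl | h
  · exact Or.inl rfl
  · right
    rw [Valuation.map_sub_swap, hv]
    exact h

theorem R.trans {lam : O.ValueGroup} (h1 : lam ≤ 1) {x y z : K} (h : R O lam x y)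
    (h' : R O lam y z) : R O lam x z := by
  have hv := h'.val_eq h1
  rcases h with rfl | h
  · exact h'
  rcases h' with rfl | h'
  · exact Or.inr h
  right
  have : x - z = (x - y) + (y - z) := by ring
  rw [this]
  exact Valuation.map_add_lt _ (hv ▸ h) h'

end Val

section Def

variable {L : FirstOrder.Language.{u, v}} {add mul : L.Functions 2} {o : L.Relations 1}
variable {K : Type w} [Field K] [L.Structure K] {O : ValuationSubring K}

/-- The symbols are interpreted as intended. -/
structure Compat (L : FirstOrder.Language.{u, v}) (add mul : L.Functions 2) (o : L.Relations 1)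
    (K : Type w) [Field K] [L.Structure K] (O : ValuationSubring K) : Prop where
  hadd : ∀ x y : K, FirstOrder.Language.Structure.funMap add ![x, y] = x + y
  hmul : ∀ x y : K, FirstOrder.Language.Structure.funMap mul ![x, y] = x * y
  ho : ∀ x : K, FirstOrder.Language.Structure.RelMap o ![x] ↔ x ∈ O

variable {A : Set K} {α : Type}

theorem def_congr {P Q : (α → K) → Prop} (h : A.Definable L {x | P x}) (e : ∀ x, P x ↔ Q x) :
    A.Definable L {x | Q x} := by
  have : {x | Q x} = {x | P x} := by ext x; simp [e]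
  rw [this]; exact h

theorem dfun_add (H : Compat L add mul o K O) {f g : (α → K) → K} (hf : A.DefinableFun L f)
    (hg : A.DefinableFun L g) : A.DefinableFun L (fun x => f x + g x) := by
  have h1 : A.DefinableMap L (fun x : α → K => ![f x, g x]) := by
    intro i
    fin_cases i
    · exact hf
    · exact hg
  have h2 := DefinableFun.comp h1 ((DefinableFun.fun_symbol (M := K) add).of_empty (A := A))
  simpa [H.hadd] using h2

theorem dfun_mul (H : Compat L add mul o K O) {f g : (α → K) → K} (hf : A.DefinableFun L f)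
    (hg : A.DefinableFun L g) : A.DefinableFun L (fun x => f x * g x) := by
  have h1 : A.DefinableMap L (fun x : α → K => ![f x, g x]) := by
    intro i
    fin_cases i
    · exact hf
    · exact hg
  have h2 := DefinableFun.comp h1 ((DefinableFun.fun_symbol (M := K) mul).of_empty (A := A))
  simpa [H.hmul] using h2

theorem dfun_reindex {β : Type} {f : (α → K) → K} (hf : A.DefinableFun L f) (e : α → β) :
    A.DefinableFun L (fun x : β → K => f (x ∘ e)) := by
  have := Definable.preimage_comp (Option.map e) hf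
  refine def_congr (P := fun x : Option β → K => (x ∘ Option.map e) ∈ f.tupleGraph) this ?_
  intro x
  simp only [Function.tupleGraph, mem_ofPred_eq]
  rfl

theorem dfun_proj (i : α) : A.DefinableFun L (fun x : α → K => x i) := DefinableFun.proj L

theorem dfun_const {a : K} (ha : a ∈ A) : A.DefinableFun L (fun _ : α → K => a) :=
  L.definableFun_const α ha

theorem dfun_sub (H : Compat L add mul o K O) {f g : (α → K) → K} (hf : A.DefinableFun L f)
    (hg : A.DefinableFun L g) : A.DefinableFun L (fun x => f x - g x) := by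
  have h1 := (dfun_add H (dfun_proj (L := L) (A := A) (none : Option α))
    (dfun_reindex hg some)).ofPred_eq (dfun_reindex hf some)
  refine def_congr h1 ?_
  intro x
  constructor
  · intro h
    change f (x ∘ some) - g (x ∘ some) = x none
    rw [← h]; ring
  · intro h
    change f (x ∘ some) - g (x ∘ some) = x none at h
    rw [← h]; ring

theorem def_memO (H : Compat L add mul o K O) {f : (α → K) → K} (hf : A.DefinableFun L f) :
    A.Definable L {x | f x ∈ O} := by
  have h0 : A.Definable L {x : Fin 1 → K | x 0 ∈ O} := by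
    refine Definable.mono ?_ (empty_subset A)
    rw [empty_definable_iff]
    refine ⟨o.formula₁ (FirstOrder.Language.Term.var 0), ?_⟩
    ext x
    simp [H.ho]
  have h1 : A.DefinableMap L (fun x : α → K => ![f x]) := by
    intro i
    fin_cases i
    exact hf
  exact h0.preimage_map h1

theorem def_ex1 {Q : (α → K) → K → Prop}
    (h : A.Definable L {w : Option α → K | Q (w ∘ some) (w none)}) :
    A.Definable L {x | ∃ y, Q x y} := by
  have h1 := (h.preimage_comp
    (fun i : Option α => (i.elim (Sum.inr ()) Sum.inl : α ⊕ Unit))).exists_of_finite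
  refine def_congr h1 ?_
  intro x
  constructor
  · rintro ⟨y, hy⟩
    exact ⟨y (), hy⟩
  · rintro ⟨y, hy⟩
    exact ⟨fun _ => y, hy⟩

theorem def_le (H : Compat L add mul o K O) {f g : (α → K) → K} (hf : A.DefinableFun L f)
    (hg : A.DefinableFun L g) :
    A.Definable L {x | O.valuation (f x) ≤ O.valuation (g x)} := by
  have h1 : A.Definable L {x : α → K | ∃ y, y ∈ O ∧ y * g x = f x} := by
    refine def_ex1 (Q := fun x y => y ∈ O ∧ y * g x = f x) ?_
    exact (def_memO H (dfun_proj none)).inter
      ((dfun_mul H (dfun_proj none) (dfun_reindex hg some)).ofPred_eq (dfun_reindex hf some))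
  refine def_congr h1 ?_
  intro x
  rw [ValuationSubring.valuation_le_iff]
  simp

theorem def_lt (H : Compat L add mul o K O) {f g : (α → K) → K} (hf : A.DefinableFun L f)
    (hg : A.DefinableFun L g) :
    A.Definable L {x | O.valuation (f x) < O.valuation (g x)} := by
  refine def_congr (P := fun x => ¬ O.valuation (g x) ≤ O.valuation (f x)) (def_le H hg hf).compl ?_
  intro x
  simp

theorem def_R (H : Compat L add mul o K O) {l f g : (α → K) → K} (hl : A.DefinableFun L l)
    (hf : A.DefinableFun L f) (hg : A.DefinableFun L g) :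
    A.Definable L {x | R O (O.valuation (l x)) (f x) (g x)} := by
  refine def_congr (P := fun x => f x = g x ∨ O.valuation (f x - g x) < O.valuation (l x * g x))
    ((hf.ofPred_eq hg).union (def_lt H (dfun_sub H hf hg) (dfun_mul H hl hg))) ?_
  intro x
  simp [R]

theorem def_R1 (H : Compat L add mul o K O) {f g : (α → K) → K}
    (hf : A.DefinableFun L f) (hg : A.DefinableFun L g) :
    A.Definable L {x | R O 1 (f x) (g x)} := by
  refine def_congr (P := fun x => f x = g x ∨ O.valuation (f x - g x) < O.valuation (g x))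
    ((hf.ofPred_eq hg).union (def_lt H (dfun_sub H hf hg) hg)) ?_
  intro x
  simp [R]

/-- Definable with parameters from `A` and from `RV`. -/
def RD (L : FirstOrder.Language.{u, v}) [L.Structure K] (O : ValuationSubring K) (A : Set K)
    {α : Type} (P : (α → K) → Prop) : Prop :=
  ∃ (β : Type) (_ : Finite β) (b : β → K) (S : Set (α ⊕ β → K)), A.Definable L S ∧
    ∀ b' : β → K, (∀ i, R O 1 (b' i) (b i)) → ∀ x, P x ↔ Sum.elim x b' ∈ S

variable {P Q : (α → K) → Prop}

theorem RD.of_def (h : A.Definable L {x | P x}) : RD L O A P := by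
  refine ⟨Empty, inferInstance, Empty.elim, _, h.preimage_comp Sum.inl, ?_⟩
  intro b' _ x
  rfl

theorem RD.congr (h : RD L O A P) (e : ∀ x, P x ↔ Q x) : RD L O A Q := by
  have : Q = P := by ext x; simp [e]
  rw [this]; exact h

theorem RD.mono {B : Set K} (h : RD L O A P) (hAB : A ⊆ B) : RD L O B P := by
  obtain ⟨β, _, b, S, hS, h⟩ := h
  exact ⟨β, inferInstance, b, S, hS.mono hAB, h⟩

theorem RD.not (h : RD L O A P) : RD L O A (fun x => ¬ P x) := by
  obtain ⟨β, _, b, S, hS, h⟩ := h
  refine ⟨β, inferInstance, b, Sᶜ, hS.compl, ?_⟩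
  intro b' hb x
  beta_reduce
  rw [h b' hb x]
  rfl

theorem RD.and (h : RD L O A P) (h' : RD L O A Q) : RD L O A (fun x => P x ∧ Q x) := by
  obtain ⟨β, _, b, S, hS, h⟩ := h
  obtain ⟨β', _, c, S', hS', h'⟩ := h'
  refine ⟨β ⊕ β', inferInstance, Sum.elim b c, _,
    (hS.preimage_comp (Sum.map id Sum.inl)).inter (hS'.preimage_comp (Sum.map id Sum.inr)), ?_⟩
  intro b' hb x
  beta_reduce
  rw [h (b' ∘ Sum.inl) (fun i => hb (Sum.inl i)) x, h' (b' ∘ Sum.inr) (fun i => hb (Sum.inr i)) x]
  have e1 : Sum.elim x b' ∘ Sum.map id Sum.inl = Sum.elim x (b' ∘ Sum.inl) := by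
    ext (i | i) <;> rfl
  have e2 : Sum.elim x b' ∘ Sum.map id Sum.inr = Sum.elim x (b' ∘ Sum.inr) := by
    ext (i | i) <;> rfl
  simp only [mem_inter_iff, mem_preimage, e1, e2]

theorem RD.imp (h : RD L O A P) (h' : RD L O A Q) : RD L O A (fun x => P x → Q x) :=
  (h.and h'.not).not.congr (by intro x; tauto)

theorem RD.map {α' : Type} [Finite α] {F : (α' → K) → (α → K)} (h : RD L O A P)
    (hF : ∀ i, A.DefinableFun L (fun x => F x i)) : RD L O A (fun x => P (F x)) := by
  obtain ⟨β, _, b, S, hS, h⟩ := h
  have hG : A.DefinableMap L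
      (fun w : α' ⊕ β → K => Sum.elim (F (w ∘ Sum.inl)) (w ∘ Sum.inr)) := by
    rintro (i | i)
    · exact dfun_reindex (hF i) Sum.inl
    · exact dfun_proj (Sum.inr i)
  refine ⟨β, inferInstance, b, _, hS.preimage_map hG, ?_⟩
  intro b' hb x
  beta_reduce
  rw [h b' hb]
  rfl

theorem RD.ex {γ : Type} [Finite γ] {Q : (α → K) → (γ → K) → Prop}
    (h : RD L O A (fun w : α ⊕ γ → K => Q (w ∘ Sum.inl) (w ∘ Sum.inr))) :
    RD L O A (fun x => ∃ y, Q x y) := by
  obtain ⟨β, _, b, S, hS, h⟩ := h
  have h1 := (hS.preimage_comp (fun i : (α ⊕ γ) ⊕ β =>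
    (Sum.elim (Sum.elim (fun a => Sum.inl (Sum.inl a)) Sum.inr) (fun c => Sum.inl (Sum.inr c)) i :
      (α ⊕ β) ⊕ γ))).exists_of_finite
  refine ⟨β, inferInstance, b, _, h1, ?_⟩
  intro b' hb x
  simp only [mem_ofPred_eq, mem_preimage]
  refine exists_congr fun y => ?_
  have := h b' hb (Sum.elim x y)
  simp only [Sum.elim_comp_inl, Sum.elim_comp_inr] at this
  rw [this]
  apply Iff.of_eq
  congr 1
  ext ((i | i) | i) <;> rfl

theorem RD.all {γ : Type} [Finite γ] {Q : (α → K) → (γ → K) → Prop}
    (h : RD L O A (fun w : α ⊕ γ → K => Q (w ∘ Sum.inl) (w ∘ Sum.inr))) :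
    RD L O A (fun x => ∀ y, Q x y) :=
  (RD.ex (Q := fun x y => ¬ Q x y) h.not).not.congr (by intro x; simp)

theorem RD.comp {α' : Type} (h : RD L O A P) (e : α → α') :
    RD L O A (fun x : α' → K => P (x ∘ e)) := by
  obtain ⟨β, _, b, S, hS, h⟩ := h
  refine ⟨β, inferInstance, b, _, hS.preimage_comp (Sum.map e id), ?_⟩
  intro b' hb x
  beta_reduce
  rw [h b' hb]
  apply Iff.of_eq
  simp only [mem_preimage]
  congr 1
  ext (i | i) <;> rfl

theorem RD.ex1 {Q : (α → K) → K → Prop}
    (h : RD L O A (fun w : Option α → K => Q (w ∘ some) (w none))) :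
    RD L O A (fun x => ∃ y, Q x y) := by
  have h1 := h.comp (fun i : Option α => (i.elim (Sum.inr ()) Sum.inl : α ⊕ Unit))
  refine (RD.ex (Q := fun x (y : Unit → K) => Q x (y ())) h1).congr ?_
  intro x
  constructor
  · rintro ⟨y, hy⟩
    exact ⟨y (), hy⟩
  · rintro ⟨y, hy⟩
    exact ⟨fun _ => y, hy⟩

theorem RD.all1 {Q : (α → K) → K → Prop}
    (h : RD L O A (fun w : Option α → K => Q (w ∘ some) (w none))) :
    RD L O A (fun x => ∀ y, Q x y) :=
  (RD.ex1 (Q := fun x y => ¬ Q x y) h.not).not.congr (by intro x; simp)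

theorem RD.true : RD L O A (fun _ : α → K => True) :=
  RD.of_def (by simp)

theorem RD.forall_finset {ι : Type*} (s : Finset ι) {P : ι → (α → K) → Prop}
    (h : ∀ i ∈ s, RD L O A (P i)) : RD L O A (fun x => ∀ i ∈ s, P i x) := by
  classical
  induction s using Finset.induction_on with
  | empty => exact RD.true.congr (by simp)
  | insert a s _ ih =>
    refine ((h a (by simp)).and (ih fun i hi => h i (by simp [hi]))).congr ?_
    intro x
    simp

theorem RD.forall_finite {ι : Type*} [Finite ι] {P : ι → (α → K) → Prop}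
    (h : ∀ i, RD L O A (P i)) : RD L O A (fun x => ∀ i, P i x) := by
  have := Fintype.ofFinite ι
  exact (RD.forall_finset Finset.univ fun i _ => h i).congr (by simp)

theorem RD.rv1 (H : Compat L add mul o K O) {f : (α → K) → K} (hf : A.DefinableFun L f) (t : K) :
    RD L O A (fun x => R O 1 (f x) t) := by
  refine ⟨Unit, inferInstance, fun _ => t, _,
    def_R1 H (dfun_reindex hf Sum.inl) (dfun_proj (Sum.inr ())), ?_⟩
  intro b' hb x
  have := hb ()
  constructor
  · intro h
    exact h.trans le_rfl (this.symm le_rfl)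
  · intro h
    exact R.trans le_rfl h this

theorem RD.rvl (H : Compat L add mul o K O) {f g : (α → K) → K} (hf : A.DefinableFun L f)
    (hg : A.DefinableFun L g) (lam : O.ValueGroup) :
    RD L O A (fun x => R O lam (f x) (g x)) := by
  obtain ⟨l, rfl⟩ := O.valuation_surjective lam
  refine ⟨Unit, inferInstance, fun _ => l, _,
    def_R H (dfun_proj (Sum.inr ())) (dfun_reindex hf Sum.inl) (dfun_reindex hg Sum.inl), ?_⟩
  intro b' hb x
  have := (hb ()).val_eq le_rfl
  simp only [mem_ofPred_eq, Sum.elim_inr, this]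
  rfl

theorem RD.eq {f g : (α → K) → K} (hf : A.DefinableFun L f) (hg : A.DefinableFun L g) :
    RD L O A (fun x => f x = g x) :=
  RD.of_def (hf.ofPred_eq hg)

theorem RD.univ (h : RD L O A P) : (Set.univ : Set K).Definable L {x | P x} := by
  obtain ⟨β, _, b, S, hS, h⟩ := h
  obtain ⟨φ, rfl⟩ := definable_iff_exists_formula_sum.1 hS
  rw [definable_iff_exists_formula_sum]
  refine ⟨φ.relabel (Sum.elim (fun a : A => Sum.inl ⟨(a : K), mem_univ _⟩)
    (Sum.elim Sum.inr (fun i => Sum.inl ⟨b i, mem_univ _⟩))), ?_⟩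
  ext x
  simp only [mem_ofPred_eq, FirstOrder.Language.Formula.realize_relabel]
  rw [h b (fun i => R.refl _ _) x]
  simp only [mem_ofPred_eq]
  apply Iff.of_eq
  congr 1
  ext (i | i | i) <;> rfl

/-- A set definable over `A` and a tuple `p` is a fibre of an `A`-definable set. -/
theorem exists_spread {γ : Type} {p : γ → K} {S : Set (α → K)}
    (h : (A ∪ range p).Definable L S) :
    ∃ S' : Set (α ⊕ γ → K), A.Definable L S' ∧ ∀ x, x ∈ S ↔ Sum.elim x p ∈ S' := by
  classical
  obtain ⟨φ, rfl⟩ := definable_iff_exists_formula_sum.1 h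
  let e : ↥(A ∪ range p) → ↥A ⊕ (α ⊕ γ) := fun a =>
    if ha : (a : K) ∈ A then Sum.inl ⟨a, ha⟩
    else Sum.inr (Sum.inr (Classical.choose (a.2.resolve_left ha)))
  refine ⟨_, definable_iff_exists_formula_sum.2
    ⟨φ.relabel (Sum.elim e (fun i => Sum.inr (Sum.inl i))), rfl⟩, ?_⟩
  intro x
  simp only [mem_ofPred_eq, FirstOrder.Language.Formula.realize_relabel]
  apply Iff.of_eq
  congr 1
  ext (a | i)
  · by_cases ha : (a : K) ∈ A
    · simp [e, ha]
    · simp only [Sum.elim_inl, Function.comp_apply, e, ha, dite_false, Sum.elim_inr]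
      exact (Classical.choose_spec (a.2.resolve_left ha)).symm
  · rfl

end Def

end Pool.Agent.MP_0e4269_lc

end MrgPart0

-- ======== part 1: formerly Pool.Agent.MP_0e4269_lc.Curve
section MrgPart1

/-!
The main argument inside one model: uniform preparation with one parameter from `RV_lam`
implies pointwise preparation with any finite number of such parameters.
-/

set_option linter.unusedSectionVars false

open FirstOrder Set

universe u v w

namespace Pool.Agent.MP_0e4269_lc

section Val

variable {K : Type w} [Field K] {O : ValuationSubring K}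

theorem val_nat_le (n : ℕ) : O.valuation (n : K) ≤ 1 := by
  rw [ValuationSubring.valuation_le_one_iff]
  exact natCast_mem O n

theorem val_nat_sub (hch : ∀ n : ℕ, n ≠ 0 → O.valuation (n : K) = 1) {i j : ℕ} (h : i ≠ j) :
    O.valuation ((i : K) - j) = 1 := by
  rcases lt_or_gt_of_ne h with h | h
  · rw [Valuation.map_sub_swap, ← Nat.cast_sub h.le]
    exact hch _ (by omega)
  · rw [← Nat.cast_sub h.le]
    exact hch _ (by omega)

/-- A point of a finite set is determined by the leading terms of its differences with the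
other points. -/
theorem eq_of_profile (hch : ∀ n : ℕ, n ≠ 0 → O.valuation (n : K) = 1) {C : Set K}
    (hC : C.Finite) {c x : K} (hc : c ∈ C)
    (h : ∀ c' ∈ C, ∃ x' ∈ C, R O 1 (x - x') (c - c')) : x = c := by
  by_contra hne
  have hd : 0 < O.valuation (x - c) := by
    simpa [zero_lt_iff, sub_eq_zero] using hne
  choose! f hf1 hf2 using h
  have key : ∀ n : ℕ, f^[n] c ∈ C ∧
      O.valuation (f^[n] c - c - n * (x - c)) < O.valuation (x - c) := by
    intro n
    induction n with
    | zero => exact ⟨hc, by simpa using hd⟩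
    | succ n ih =>
      obtain ⟨ih1, ih2⟩ := ih
      rw [Function.iterate_succ_apply']
      refine ⟨hf1 _ ih1, ?_⟩
      set s := f^[n] c with hs
      have hle : O.valuation (c - s) ≤ O.valuation (x - c) := by
        have e : c - s = -(s - c - n * (x - c)) - n * (x - c) := by ring
        rw [e]
        refine Valuation.map_sub_le _ (by rw [Valuation.map_neg]; exact ih2.le) ?_
        rw [map_mul]
        simpa using mul_le_mul_left (val_nat_le (O := O) n) (O.valuation (x - c))
      have hsm : O.valuation (x - f s - (c - s)) < O.valuation (x - c) := by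
        rcases hf2 _ ih1 with h | h
        · rw [h]; simpa using hd
        · exact lt_of_lt_of_le (by simpa using h) hle
      have e : f s - c - ((n + 1 : ℕ) : K) * (x - c) =
          (s - c - n * (x - c)) - (x - f s - (c - s)) := by
        push_cast; ring
      rw [e]
      exact Valuation.map_sub_lt _ ih2 hsm
  obtain ⟨i, -, j, -, hij, he⟩ := Set.infinite_univ.exists_ne_map_eq_of_mapsTo
    (f := fun n : ℕ => f^[n] c) (fun n _ => (key n).1) hC
  have h1 := (key i).2
  have h2 := (key j).2
  rw [he] at h1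
  have h3 := Valuation.map_sub_lt _ h2 h1
  have e : f^[j] c - c - j * (x - c) - (f^[j] c - c - i * (x - c)) = ((i : K) - j) * (x - c) := by
    ring
  rw [e, map_mul, val_nat_sub hch hij, one_mul] at h3
  exact lt_irrefl _ h3

/-- A closed ball has a residue class avoiding a given finite set. -/
theorem exists_free_class (hch : ∀ n : ℕ, n ≠ 0 → O.valuation (n : K) = 1) {C : Set K}
    (hC : C.Finite) (x e : K) :
    ∃ u, O.valuation (u - x) ≤ O.valuation e ∧
      ∀ c ∈ C, O.valuation e ≤ O.valuation (u - c) := by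
  by_contra hne
  push Not at hne
  have h1 : ∀ n : ℕ, O.valuation (x + n * e - x) ≤ O.valuation e := by
    intro n
    rw [add_sub_cancel_left, map_mul]
    simpa using mul_le_mul_left (val_nat_le (O := O) n) (O.valuation e)
  choose g hg1 hg2 using fun n : ℕ => hne (x + n * e) (h1 n)
  obtain ⟨i, -, j, -, hij, he⟩ := Set.infinite_univ.exists_ne_map_eq_of_mapsTo
    (f := g) (fun n _ => hg1 n) hC
  have h2 := hg2 i
  rw [he] at h2
  have h3 := Valuation.map_sub_lt _ h2 (hg2 j)
  have e' : x + i * e - g j - (x + j * e - g j) = ((i : K) - j) * e := by ring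
  rw [e', map_mul, val_nat_sub hch hij, one_mul] at h3
  exact lt_irrefl _ h3

/-- The tuple `(z, b, c)`. -/
def tup {β γ : Type} (z : K) (b : β → K) (c : γ → K) : Unit ⊕ β ⊕ γ → K :=
  Sum.elim (fun _ => z) (Sum.elim b c)

/-- The fibre of `S` over `(b, c)` only depends on the classes of `b` in `RV`, `c` in `RV_lam`. -/
def Inv (O : ValuationSubring K) (lam : O.ValueGroup) {β γ : Type}
    (S : Set (Unit ⊕ β ⊕ γ → K)) (b : β → K) (c : γ → K) : Prop :=
  ∀ (b' : β → K) (c' : γ → K), (∀ i, R O 1 (b' i) (b i)) → (∀ j, R O lam (c' j) (c j)) →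
    ∀ z, tup z b' c' ∈ S ↔ tup z b c ∈ S

end Val

variable {L : FirstOrder.Language.{u, v}} {add mul : L.Functions 2} {o : L.Relations 1}
variable {K : Type w} [Field K] [L.Structure K] {O : ValuationSubring K}

/-- Uniform preparation in the structure `K`. -/
def Unif (L : FirstOrder.Language.{u, v}) [L.Structure K] (O : ValuationSubring K) (γ : Type) :
    Prop :=
  ∀ (A : Set K) (β : Type) [Finite β] (S : Set (Unit ⊕ β ⊕ γ → K)), A.Definable L S →
    ∃ C : Set K, C.Finite ∧ A.Definable₁ L C ∧
      ∀ lam : O.ValueGroup, lam ≠ 0 → lam ≤ 1 → ∀ b c, Inv O lam S b c →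
        ∀ x x', (∀ a ∈ C, R O lam (x - a) (x' - a)) → tup x b c ∈ S → tup x' b c ∈ S

/-- Pointwise preparation in the structure `K`. -/
def PW (L : FirstOrder.Language.{u, v}) [L.Structure K] (O : ValuationSubring K) (γ : Type) :
    Prop :=
  ∀ (A : Set K) (β : Type) [Finite β] (S : Set (Unit ⊕ β ⊕ γ → K)), A.Definable L S →
    ∀ lam : O.ValueGroup, lam ≠ 0 → lam ≤ 1 → ∀ b c, Inv O lam S b c →
      ∀ x x', (∀ C : Set K, C.Finite → A.Definable₁ L C → ∀ a ∈ C, R O lam (x - a) (x' - a)) →
        tup x b c ∈ S → tup x' b c ∈ S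

theorem Unif.prep0 (hU : Unif L O Unit) {A : Set K} {P : K → Prop}
    (hP : RD L O A (fun w : Unit → K => P (w ()))) :
    ∃ C : Set K, C.Finite ∧ A.Definable₁ L C ∧
      ∀ x x', (∀ a ∈ C, R O 1 (x - a) (x' - a)) → P x → P x' := by
  obtain ⟨β, _, b, S, hS, h⟩ := hP
  obtain ⟨C, hC, hCd, hCp⟩ := hU A β _ (hS.preimage_comp (Sum.map id Sum.inl))
  have key : ∀ (b' : β → K) (c' : Unit → K), (∀ i, R O 1 (b' i) (b i)) → ∀ z,
      (tup z b' c' ∈ (fun g : Unit ⊕ β ⊕ Unit → K => g ∘ Sum.map id Sum.inl) ⁻¹' S ↔ P z) := by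
    intro b' c' hb z
    rw [show P z ↔ _ from h b' hb (fun _ => z), mem_preimage]
    apply Iff.of_eq
    congr 1
    ext (i | i) <;> rfl
  refine ⟨C, hC, hCd, fun x x' hx hPx => ?_⟩
  have := hCp 1 one_ne_zero le_rfl b (fun _ => 0) (fun b' c' hb _ z => by
    rw [key b' c' hb, key b _ (fun i => R.refl _ _)]) x x' hx
  rw [key b _ (fun i => R.refl _ _), key b _ (fun i => R.refl _ _)] at this
  exact this hPx

/-- A definable curve over a ball free of algebraic points, inside a given definable set. -/
theorem exists_curve (H : Compat L add mul o K O)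
    (hch : ∀ n : ℕ, n ≠ 0 → O.valuation (n : K) = 1) (hU : Unif L O Unit) {A : Set K} {x : K}
    {r : O.ValueGroup}
    (hE : ∀ C : Set K, C.Finite → A.Definable₁ L C → ∀ a ∈ C, r < O.valuation (x - a)) (m : ℕ) :
    ∀ F : K → (Fin m → K) → Prop,
      RD L O A (fun w : Option (Fin m) → K => F (w none) (w ∘ some)) → ∀ y, F x y →
      ∃ G : K → (Fin m → K) → Prop,
        RD L O Set.univ (fun w : Option (Fin m) → K => G (w none) (w ∘ some)) ∧
        (∀ u y, G u y → F u y) ∧ (∀ u y y', G u y → G u y' → y = y') ∧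
        ∀ u, O.valuation (u - x) ≤ r → ∃ y, G u y := by
  induction m with
  | zero =>
    intro F hF y hy
    refine ⟨F, hF.mono (subset_univ _), fun _ _ h => h, fun _ _ _ _ _ => Subsingleton.elim _ _,
      fun u hu => ⟨y, ?_⟩⟩
    have h1 : RD L O A (fun w : Unit → K => F (w ()) y) := by
      refine (hF.comp (fun _ => ())).congr fun w => ?_
      apply Iff.of_eq
      congr 1
      exact Subsingleton.elim _ _
    obtain ⟨C, hC, hCd, hCp⟩ := hU.prep0 (P := fun w => F w y) h1
    refine hCp x u (fun a ha => R.symm le_rfl (Or.inr ?_)) hy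
    have e : u - a - (x - a) = u - x := by ring
    rw [e, one_mul]
    exact lt_of_le_of_lt hu (hE C hC hCd a ha)
  | succ m ih =>
    intro F hF y hy
    classical
    set z := y 0 with hz
    set y' : Fin m → K := Fin.tail y with hy'
    let p : Option (Fin m) → K := fun i => i.elim x y'
    have h1 : RD L O (A ∪ range p) (fun w : Unit → K => F x (Fin.cons (w ()) y')) := by
      refine ((hF.mono subset_union_left).map (F := fun (w : Unit → K) i =>
        i.elim x (Fin.cons (w ()) y' : Fin (m + 1) → K)) ?_).congr fun w => Iff.rfl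
      rintro (_ | i)
      · exact dfun_const (Or.inr ⟨none, rfl⟩)
      · refine Fin.cases ?_ (fun i => ?_) i
        · exact dfun_proj ()
        · exact dfun_const (Or.inr ⟨some i, rfl⟩)
    obtain ⟨C₀, hC₀, hCd₀, hCp₀⟩ := hU.prep0 (P := fun w => F x (Fin.cons w y')) h1
    have hC : (C₀ ∪ {x}).Finite := hC₀.union (finite_singleton x)
    have hCd : (A ∪ range p).Definable₁ L (C₀ ∪ {x}) :=
      Definable.union hCd₀ (Definable.singleton_of_mem L (Or.inr ⟨none, rfl⟩))
    set C := C₀ ∪ {x} with hCdef
    obtain ⟨c, hcC, hcmin⟩ := Set.exists_min_image C (fun c => O.valuation (z - c)) hC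
      ⟨x, Or.inr rfl⟩
    obtain ⟨D, hD, hDp⟩ := exists_spread hCd
    let Cq : (Option (Fin m) → K) → K → Prop := fun q w => Sum.elim (fun _ => w) q ∈ D
    have hCq : ∀ w, Cq p w ↔ w ∈ C := fun w => (hDp (fun _ => w)).symm
    have hCqd : RD L O A (fun w : Option (Option (Fin m)) → K => Cq (w ∘ some) (w none)) := by
      refine ((RD.of_def (O := O) (P := fun w => w ∈ D) hD).comp
        (Sum.elim (fun _ => none) some)).congr fun w => ?_
      apply Iff.of_eq
      simp only [Cq]
      congr 1
      ext (i | i) <;> rfl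
    let Θ : (Option (Fin m) → K) → K → Prop := fun q w =>
      Cq q w ∧ ∀ c' ∈ hC.toFinset, ∃ w', Cq q w' ∧ R O 1 (w - w') (c - c')
    have hΘd : RD L O A (fun w : Option (Option (Fin m)) → K => Θ (w ∘ some) (w none)) := by
      refine hCqd.and (RD.forall_finset _ fun c' _ => ?_)
      refine RD.ex1 (Q := fun (w : Option (Option (Fin m)) → K) w' =>
        Cq (w ∘ some) w' ∧ R O 1 (w none - w') (c - c')) ?_
      exact (hCqd.comp (fun i => i.elim none (fun j => some (some j)))).and
        (RD.rv1 H (dfun_sub H (dfun_proj (some none)) (dfun_proj none)) _)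
    have hΘp : ∀ w, Θ p w ↔ w = c := by
      intro w
      constructor
      · rintro ⟨-, h2⟩
        refine eq_of_profile hch hC hcC fun c' hc' => ?_
        obtain ⟨w', hw', h3⟩ := h2 c' (by simpa using hc')
        exact ⟨w', (hCq _).1 hw', h3⟩
      · rintro rfl
        exact ⟨(hCq _).2 hcC, fun c' hc' =>
          ⟨c', (hCq _).2 (by simpa using hc'), R.refl _ _⟩⟩
    let F' : K → (Fin m → K) → Prop := fun u t =>
      ∃ c', Θ (fun i => i.elim u t) c' ∧ (∀ c'', Θ (fun i => i.elim u t) c'' → c'' = c') ∧
        ∀ w, R O 1 (w - c') (z - c) → F u (Fin.cons w t)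
    have heta : ∀ w : Option (Fin m) → K, (fun i : Option (Fin m) => i.elim (w none) (w ∘ some)) = w := by
      intro w; ext (_ | i) <;> rfl
    have hF' : RD L O A (fun w : Option (Fin m) → K => F' (w none) (w ∘ some)) := by
      simp only [F', heta]
      refine RD.ex1 (Q := fun (q : Option (Fin m) → K) c' => Θ q c' ∧ (∀ c'', Θ q c'' → c'' = c') ∧
        ∀ w, R O 1 (w - c') (z - c) → F (q none) (Fin.cons w (q ∘ some))) ?_
      refine hΘd.and (RD.and ?_ ?_)
      · refine RD.all1 (Q := fun (w : Option (Option (Fin m)) → K) c'' =>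
          Θ (w ∘ some) c'' → c'' = w none) ?_
        exact (hΘd.comp (fun i => i.elim none (fun j => some (some j)))).imp
          (RD.eq (dfun_proj none) (dfun_proj (some none)))
      · refine RD.all1 (Q := fun (q : Option (Option (Fin m)) → K) w =>
          R O 1 (w - q none) (z - c) → F (q (some none)) (Fin.cons w ((q ∘ some) ∘ some))) ?_
        refine (RD.rv1 H (dfun_sub H (dfun_proj none) (dfun_proj (some none))) _).imp ?_
        refine (hF.comp (fun i => i.elim (some (some none))
          (Fin.cons none (fun k => some (some (some k))) :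
            Fin (m + 1) → Option (Option (Option (Fin m)))))).congr fun w => ?_
        apply Iff.of_eq
        congr 1
        ext i
        refine Fin.cases ?_ (fun i => ?_) i <;> rfl
    have hxy' : F' x y' := by
      refine ⟨c, (hΘp c).2 rfl, fun c'' h => (hΘp c'').1 h, fun w hw => ?_⟩
      refine hCp₀ z w (fun a ha => R.symm le_rfl ?_) (by simpa [hz, hy'] using hy)
      rcases hw with hw | hw
      · left
        rw [sub_left_inj] at hw
        rw [hw]
      · right
        have e : w - a - (z - a) = w - c - (z - c) := by ring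
        rw [e]
        exact lt_of_lt_of_le hw (by simpa using hcmin a (Or.inl ha))
    obtain ⟨G, hGd, hGF, hGu, hGe⟩ := ih F' hF' y' hxy'
    refine ⟨fun u t => G u (Fin.tail t) ∧
      ∃ c', Θ (fun i => i.elim u (Fin.tail t)) c' ∧ t 0 = c' + (z - c), ?_, ?_, ?_, ?_⟩
    · refine RD.and ?_ ?_
      · exact hGd.comp (Option.map Fin.succ)
      · refine RD.ex1 (Q := fun (q : Option (Fin (m + 1)) → K) c' =>
          Θ (fun i => i.elim (q none) (Fin.tail (q ∘ some))) c' ∧ q (some 0) = c' + (z - c)) ?_
        refine RD.and ?_ (RD.eq (dfun_proj (some (some 0)))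
          (dfun_add H (dfun_proj none) (dfun_const (mem_univ _))))
        refine ((hΘd.mono (subset_univ _)).comp
          (fun i => i.elim none (fun j => some (j.map Fin.succ)))).congr fun w => ?_
        apply Iff.of_eq
        congr 1
        ext (_ | i) <;> rfl
    · rintro u t ⟨h2, c', h3, h4⟩
      obtain ⟨c₁, -, h6, h7⟩ := hGF _ _ h2
      have := h7 (t 0) (by rw [h4, h6 c' h3]; left; ring)
      simpa using this
    · rintro u t t' ⟨h2, c', h3, h4⟩ ⟨h2', c'', h3', h4'⟩
      have h5 := hGu _ _ _ h2 h2'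
      obtain ⟨c₁, -, h6, -⟩ := hGF _ _ h2
      rw [← h5] at h3'
      rw [← Fin.cons_self_tail t, ← Fin.cons_self_tail t', h5, h4, h4', h6 c' h3, h6 c'' h3']
    · intro u hu
      obtain ⟨t, ht⟩ := hGe u hu
      obtain ⟨c₁, h5, -, -⟩ := hGF _ _ ht
      exact ⟨Fin.cons (c₁ + (z - c)) t, by simpa using ht, c₁, by simpa using h5, by simp⟩

end Pool.Agent.MP_0e4269_lc

end MrgPart1

-- ======== part 2: formerly Pool.Agent.MP_0e4269_lc.Main
section MrgPart2

/-!
Uniform preparation with one parameter from `RV_lam` implies pointwise preparation with any finite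
number of them.
-/

set_option linter.unusedSectionVars false

open FirstOrder Set

universe u v w

namespace Pool.Agent.MP_0e4269_lc

variable {L : FirstOrder.Language.{u, v}} {add mul : L.Functions 2} {o : L.Relations 1}
variable {K : Type w} [Field K] [L.Structure K] {O : ValuationSubring K}

/-- A definable function respects `RV_mu`-classes away from a finite set. -/
theorem Unif.lip (H : Compat L add mul o K O) (hU : Unif L O Unit) {Φ : K → K → Prop}
    (hΦ : RD L O Set.univ (fun t : Option Unit → K => Φ (t (some ())) (t none)))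
    (hf : ∀ u w w', Φ u w → Φ u w' → w = w') (a : K) :
    ∃ C : Set K, C.Finite ∧ ∀ mu : O.ValueGroup, mu ≠ 0 → mu ≤ 1 → ∀ u u' w w', Φ u w → Φ u' w' →
      (∀ c ∈ C, R O mu (u - c) (u' - c)) → R O mu (w' - a) (w - a) := by
  have h1 : RD L O Set.univ (fun t : Unit ⊕ Unit ⊕ Unit → K => ∃ w, Φ (t (Sum.inl ())) w ∧
      R O (O.valuation (t (Sum.inr (Sum.inl ())))) (w - a) (t (Sum.inr (Sum.inr ())))) := by
    refine RD.ex1 (Q := fun (t : Unit ⊕ Unit ⊕ Unit → K) w => Φ (t (Sum.inl ())) w ∧
      R O (O.valuation (t (Sum.inr (Sum.inl ())))) (w - a) (t (Sum.inr (Sum.inr ())))) ?_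
    refine RD.and (hΦ.comp (Option.map Sum.inl)) (RD.of_def ?_)
    exact def_R H (dfun_proj (some (Sum.inr (Sum.inl ()))))
      (dfun_sub H (dfun_proj none) (dfun_const (mem_univ _)))
      (dfun_proj (some (Sum.inr (Sum.inr ()))))
  obtain ⟨C, hC, -, hCp⟩ := hU Set.univ Unit _ h1.univ
  refine ⟨C, hC, fun mu h0 hm u u' w w' hw hw' hc => ?_⟩
  obtain ⟨l, rfl⟩ := O.valuation_surjective mu
  have h2 := hCp _ h0 hm (fun _ => l) (fun _ => w - a) (by
    intro b' c' hb hc' z
    have e := (hb ()).val_eq le_rfl
    simp only [tup, mem_ofPred_eq, Sum.elim_inl, Sum.elim_inr, e]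
    refine exists_congr fun w'' => and_congr_right fun _ => ?_
    exact ⟨fun h => h.trans hm (hc' ()), fun h => h.trans hm ((hc' ()).symm hm)⟩) u u' hc
    ⟨w, hw, R.refl _ _⟩
  obtain ⟨w'', h3, h4⟩ := h2
  rw [hf _ _ _ hw' h3]
  exact h4

theorem Unif.pw (H : Compat L add mul o K O)
    (hch : ∀ n : ℕ, n ≠ 0 → O.valuation (n : K) = 1) (hU : Unif L O Unit) (m : ℕ) :
    PW L O (Fin m) := by
  intro A β _ S hS lam h0 h1 b c hinv x x' hx hxS
  rcases h1.eq_or_lt with rfl | hlt
  · -- the case `lam = 1`
    have hP : RD L O A (fun t : Unit → K => tup (t ()) b c ∈ S) := by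
      refine ⟨β ⊕ Fin m, inferInstance, Sum.elim b c, S, hS, fun b' hb t => ?_⟩
      beta_reduce
      rw [← hinv (b' ∘ Sum.inl) (b' ∘ Sum.inr) (fun i => hb (Sum.inl i))
        (fun i => hb (Sum.inr i))]
      apply Iff.of_eq
      congr 1
      ext (i | i | i) <;> rfl
    obtain ⟨C, hC, hCd, hCp⟩ := hU.prep0 (P := fun z => tup z b c ∈ S) hP
    exact hCp x x' (hx C hC hCd) hxS
  by_contra hx'S
  have hne : x' - x ≠ 0 := by
    intro h
    rw [sub_eq_zero] at h
    exact hx'S (h ▸ hxS)
  obtain ⟨l, rfl⟩ := O.valuation_surjective lam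
  have hl0 : l ≠ 0 := by simpa using h0
  have hlpos : 0 < O.valuation l := zero_lt_iff.2 h0
  set e : K := (x' - x) / l with he
  have hel : x' - x = l * e := by rw [he]; field_simp
  have he0 : 0 < O.valuation e := by
    have : e ≠ 0 := div_ne_zero hne hl0
    simpa [zero_lt_iff] using this
  have hE : ∀ C : Set K, C.Finite → A.Definable₁ L C → ∀ a ∈ C,
      O.valuation e < O.valuation (x - a) := by
    intro C hC hCd a ha
    have h2 := hx C hC hCd a ha
    have h3 := h2.val_eq h1
    rcases h2 with h2 | h2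
    · exact absurd (by linear_combination -h2) hne
    · have e1 : x - a - (x' - a) = -(l * e) := by rw [← hel]; ring
      rw [e1, Valuation.map_neg, map_mul, ← h3] at h2
      exact lt_of_mul_lt_mul_left h2 zero_le
  let P : K → (Fin m → K) → Prop := fun u y =>
    ∃ b' : β → K, (∀ i, R O 1 (b' i) (b i)) ∧ tup u b' y ∈ S
  have hP : RD L O A (fun t : Option (Fin m) → K => P (t none) (t ∘ some)) := by
    refine RD.ex (Q := fun (t : Option (Fin m) → K) (b' : β → K) =>
      (∀ i, R O 1 (b' i) (b i)) ∧ tup (t none) b' (t ∘ some) ∈ S) ?_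
    refine RD.and (RD.forall_finite fun i => RD.rv1 H (dfun_proj (Sum.inr i)) _) ?_
    refine ((RD.of_def (O := O) (P := fun t => t ∈ S) hS).comp (Sum.elim (fun _ => Sum.inl none)
      (Sum.elim Sum.inr (fun j => Sum.inl (some j))))).congr fun t => ?_
    apply Iff.of_eq
    congr 1
    ext (i | i | i) <;> rfl
  let F : K → (Fin m → K) → Prop := fun u y => P u y ∧ (∀ i, R O 1 (y i) (c i)) ∧
    ∃ u', R O 1 (u' - u) (x' - x) ∧
      ∀ y' : Fin m → K, (∀ i, R O (O.valuation l) (y' i) (y i)) → ¬ P u' y'
  have hF : RD L O A (fun t : Option (Fin m) → K => F (t none) (t ∘ some)) := by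
    refine hP.and (RD.and (RD.forall_finite fun i => RD.rv1 H (dfun_proj (some i)) _) ?_)
    refine RD.ex1 (Q := fun (t : Option (Fin m) → K) u' => R O 1 (u' - t none) (x' - x) ∧
      ∀ y' : Fin m → K, (∀ i, R O (O.valuation l) (y' i) (t (some i))) → ¬ P u' y') ?_
    refine RD.and (RD.rv1 H (dfun_sub H (dfun_proj none) (dfun_proj (some none))) _) ?_
    refine RD.all (Q := fun (t : Option (Option (Fin m)) → K) (y' : Fin m → K) =>
      (∀ i, R O (O.valuation l) (y' i) (t (some (some i)))) → ¬ P (t none) y') ?_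
    refine RD.imp (RD.forall_finite fun i => RD.rvl H (dfun_proj (Sum.inr i))
      (dfun_proj (Sum.inl (some (some i)))) _) (RD.not ?_)
    exact hP.comp (fun i => i.elim (Sum.inl none) Sum.inr)
  have hxF : F x c := by
    refine ⟨⟨b, fun i => R.refl _ _, hxS⟩, fun i => R.refl _ _, x', R.refl _ _, ?_⟩
    rintro y' hy' ⟨b', hb', h2⟩
    exact hx'S ((hinv b' y' hb' hy' x').1 h2)
  obtain ⟨G, hGd, hGF, hGu, hGe⟩ := exists_curve H hch hU hE m F hF c hxF
  obtain ⟨y₀, hy₀⟩ := hGe x (by simp)
  have hlip := fun i : Fin m => hU.lip H (Φ := fun u w => ∃ y, G u y ∧ y i = w) (by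
    refine RD.ex (Q := fun (t : Option Unit → K) (y : Fin m → K) =>
      G (t (some ())) y ∧ y i = t none) ?_
    exact (hGd.comp (fun j => j.elim (Sum.inl (some ())) Sum.inr)).and
      (RD.eq (dfun_proj (Sum.inr i)) (dfun_proj (Sum.inl none)))) (by
    rintro u w w' ⟨y, hy, rfl⟩ ⟨y', hy', rfl⟩
    rw [hGu _ _ _ hy hy']) (y₀ i)
  choose C hC hCp using hlip
  obtain ⟨u, hu1, hu2⟩ := exists_free_class hch (finite_iUnion hC) x e
  obtain ⟨y, hy⟩ := hGe u hu1
  obtain ⟨-, hyc, u', hu', hno⟩ := hGF _ _ hy
  have hv : O.valuation (u' - u) = O.valuation l * O.valuation e := by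
    rw [hu'.val_eq le_rfl, hel, map_mul]
  have hu'1 : O.valuation (u' - x) ≤ O.valuation e := by
    have e1 : u' - x = (u' - u) + (u - x) := by ring
    rw [e1]
    refine Valuation.map_add_le _ ?_ hu1
    rw [hv]
    simpa using mul_le_mul_left h1 (O.valuation e)
  obtain ⟨y', hy'⟩ := hGe u' hu'1
  refine hno y' (fun i => ?_) (hGF _ _ hy').1
  -- the Lipschitz estimate
  have key : ∀ mu : O.ValueGroup, O.valuation l < mu → mu ≤ 1 →
      R O mu (y' i - y₀ i) (y i - y₀ i) := by
    intro mu hmu hm1
    refine hCp i mu (hlpos.trans hmu).ne' hm1 u u' _ _ ⟨y, hy, rfl⟩ ⟨y', hy', rfl⟩ fun a ha => ?_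
    refine R.symm hm1 (Or.inr ?_)
    have e1 : u' - a - (u - a) = u' - u := by ring
    rw [e1, hv]
    exact lt_of_lt_of_le (mul_lt_mul_of_pos_right hmu he0)
      (mul_le_mul_right (hu2 a (mem_iUnion.2 ⟨i, ha⟩)) mu)
  have e2 : y' i - y₀ i - (y i - y₀ i) = y' i - y i := by ring
  have hyy : R O 1 (y₀ i) (y i) := ((hGF _ _ hy₀).2.1 i).trans le_rfl ((hyc i).symm le_rfl)
  by_cases hsm : O.valuation (y i - y₀ i) ≤ O.valuation l * O.valuation (y i)
  · rcases key 1 hlt le_rfl with h | h
    · left; linear_combination h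
    · right
      rw [e2, one_mul] at h
      exact lt_of_lt_of_le h hsm
  · push Not at hsm
    have hpos : 0 < O.valuation (y i - y₀ i) := lt_of_le_of_lt zero_le hsm
    have hlt' : O.valuation (y i - y₀ i) < O.valuation (y i) := by
      rcases hyy with h | h
      · rw [h] at hpos; simp at hpos
      · rwa [one_mul, Valuation.map_sub_swap] at h
    rcases key (O.valuation l * O.valuation (y i) / O.valuation (y i - y₀ i))
      (by rw [lt_div_iff₀ hpos]; exact mul_lt_mul_of_pos_left hlt' hlpos)
      (by rw [div_le_one₀ hpos]; exact hsm.le) with h | h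
    · left; linear_combination h
    · right
      rwa [e2, div_mul_cancel₀ _ hpos.ne'] at h

end Pool.Agent.MP_0e4269_lc

end MrgPart2

-- ======== part 3: formerly Pool.Agent.MP_0e4269_lc.Ultra
section MrgPart3

/-!
Ultrapowers and the compactness step: pointwise preparation in all models implies uniform
preparation in all models.
-/

set_option linter.unusedSectionVars false
set_option linter.style.haveILetI false

open FirstOrder Set Filter

universe u v w

namespace Pool.Agent.MP_0e4269_lc

section Char

variable {K : Type w} [Field K] {O : ValuationSubring K}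

theorem charZero_residue_iff :
    CharZero (IsLocalRing.ResidueField O) ↔ ∀ n : ℕ, n ≠ 0 → O.valuation (n : K) = 1 := by
  have key : ∀ n : ℕ, ((n : IsLocalRing.ResidueField O) ≠ 0 ↔ O.valuation (n : K) = 1) := by
    intro n
    have e : (n : IsLocalRing.ResidueField O) = IsLocalRing.residue O (n : O) := by simp
    rw [e, IsLocalRing.residue_ne_zero_iff_isUnit, ValuationSubring.valuation_eq_one_iff]
    simp
  constructor
  · intro h n hn
    exact (key n).1 (Nat.cast_ne_zero.2 hn)
  · intro h
    refine charZero_of_inj_zero fun n hn => ?_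
    by_contra h0
    exact (key n).2 (h n h0) hn

theorem charZero_of_val (h : ∀ n : ℕ, n ≠ 0 → O.valuation (n : K) = 1) : CharZero K := by
  refine charZero_of_inj_zero fun n hn => ?_
  by_contra h0
  have := h n h0
  rw [hn] at this
  simp at this

end Char

section Ultra

variable {L : FirstOrder.Language.{u, v}} {add mul : L.Functions 2} {o : L.Relations 1}
variable {K : Type w} [Field K] [L.Structure K] {O : ValuationSubring K}
variable {I : Type w} {U : Ultrafilter I}

/-- The ultrapower of an `L`-structure. -/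
@[reducible] noncomputable def germStructure (L : FirstOrder.Language.{u, v}) (K : Type w)
    [L.Structure K] (U : Ultrafilter I) : L.Structure (Germ (U : Filter I) K) :=
  inferInstanceAs (L.Structure ((U : Filter I).Product (fun _ => K)))

/-- The ultrapower of a valuation ring. -/
def germO (O : ValuationSubring K) (U : Ultrafilter I) :
    ValuationSubring (Germ (U : Filter I) K) where
  carrier := {x | Germ.LiftPred (· ∈ O) x}
  mul_mem' := by
    intro a b
    refine Germ.inductionOn₂ a b fun f g hf hg => ?_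
    rw [← Germ.coe_mul]
    simp only [mem_ofPred_eq, Germ.liftPred_coe] at *
    filter_upwards [hf, hg] with i h1 h2 using O.mul_mem _ _ h1 h2
  one_mem' := Germ.liftPred_const O.one_mem
  add_mem' := by
    intro a b
    refine Germ.inductionOn₂ a b fun f g hf hg => ?_
    rw [← Germ.coe_add]
    simp only [mem_ofPred_eq, Germ.liftPred_coe] at *
    filter_upwards [hf, hg] with i h1 h2 using O.add_mem _ _ h1 h2
  zero_mem' := Germ.liftPred_const O.zero_mem
  neg_mem' := by
    intro a
    refine Germ.inductionOn a fun f hf => ?_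
    rw [← Germ.coe_neg]
    simp only [mem_ofPred_eq, Germ.liftPred_coe] at *
    filter_upwards [hf] with i h1 using O.neg_mem _ h1
  mem_or_inv_mem' := by
    intro a
    refine Germ.inductionOn a fun f => ?_
    rw [← Germ.coe_inv]
    simp only [mem_ofPred_eq, Germ.liftPred_coe]
    rw [← Ultrafilter.eventually_or]
    exact Eventually.of_forall fun i => O.mem_or_inv_mem _

theorem mem_germO {f : I → K} :
    (f : Germ (U : Filter I) K) ∈ germO O U ↔ ∀ᶠ i in (U : Filter I), f i ∈ O :=
  Germ.liftPred_coe

theorem germ_le {f g : I → K} :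
    (germO O U).valuation (f : Germ (U : Filter I) K) ≤ (germO O U).valuation g ↔
      ∀ᶠ i in (U : Filter I), O.valuation (f i) ≤ O.valuation (g i) := by
  simp only [ValuationSubring.valuation_le_iff]
  constructor
  · rintro ⟨⟨a, ha⟩, h⟩
    induction a using Germ.inductionOn with | _ a => ?_
    rw [mem_germO] at ha
    simp only at h
    rw [← Germ.coe_mul, Germ.coe_eq] at h
    filter_upwards [ha, h] with i h1 h2 using ⟨⟨a i, h1⟩, h2⟩
  · intro h
    obtain ⟨a, ha⟩ := Filter.skolem.1 h
    refine ⟨⟨((fun i => (a i : K)) : I → K), mem_germO.2 (Eventually.of_forall fun i => (a i).2)⟩,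
      ?_⟩
    simp only
    rw [← Germ.coe_mul, Germ.coe_eq]
    exact ha

theorem germ_lt {f g : I → K} :
    (germO O U).valuation (f : Germ (U : Filter I) K) < (germO O U).valuation g ↔
      ∀ᶠ i in (U : Filter I), O.valuation (f i) < O.valuation (g i) := by
  rw [← not_le, germ_le, ← Ultrafilter.eventually_not]
  simp

theorem germ_R {l f g : I → K} :
    R (germO O U) ((germO O U).valuation (l : Germ (U : Filter I) K)) f g ↔
      ∀ᶠ i in (U : Filter I), R O (O.valuation (l i)) (f i) (g i) := by
  simp only [R, ← map_mul]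
  rw [← Germ.coe_mul, ← Germ.coe_sub, germ_lt, Germ.coe_eq, Ultrafilter.eventually_or]
  rfl

theorem germ_R1 {f g : I → K} :
    R (germO O U) 1 (f : Germ (U : Filter I) K) g ↔
      ∀ᶠ i in (U : Filter I), R O 1 (f i) (g i) := by
  have := germ_R (O := O) (U := U) (l := 1) (f := f) (g := g)
  simpa using this

theorem germ_compat (H : Compat L add mul o K O) :
    letI := germStructure L K U
    Compat L add mul o (Germ (U : Filter I) K) (germO O U) := by
  letI := germStructure L K U
  refine ⟨fun x y => ?_, fun x y => ?_, fun x => ?_⟩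
  · refine Germ.inductionOn₂ x y fun f g => ?_
    have := FirstOrder.Language.Ultraproduct.funMap_cast (u := U) (M := fun _ => K) add ![f, g]
    have e : (![(f : Germ (U : Filter I) K), g] : Fin 2 → Germ (U : Filter I) K) =
        fun i => ((![f, g] i : I → K) : Germ (U : Filter I) K) := by
      ext i; fin_cases i <;> rfl
    rw [e, ← Germ.coe_add]
    refine this.trans ?_
    refine Germ.coe_eq.2 (Eventually.of_forall fun i => ?_)
    refine Eq.trans ?_ (H.hadd (f i) (g i))
    simp only
    congr 1
    ext j; fin_cases j <;> rfl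
  · refine Germ.inductionOn₂ x y fun f g => ?_
    have := FirstOrder.Language.Ultraproduct.funMap_cast (u := U) (M := fun _ => K) mul ![f, g]
    have e : (![(f : Germ (U : Filter I) K), g] : Fin 2 → Germ (U : Filter I) K) =
        fun i => ((![f, g] i : I → K) : Germ (U : Filter I) K) := by
      ext i; fin_cases i <;> rfl
    rw [e, ← Germ.coe_mul]
    refine this.trans ?_
    refine Germ.coe_eq.2 (Eventually.of_forall fun i => ?_)
    refine Eq.trans ?_ (H.hmul (f i) (g i))
    simp only
    congr 1
    ext j; fin_cases j <;> rfl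
  · refine Germ.inductionOn x fun f => ?_
    have := @FirstOrder.Language.relMap_quotient_mk' L _ _
      (FirstOrder.Language.Ultraproduct.setoidPrestructure (fun _ => K) U) 1 o ![f]
    have e : (![(f : Germ (U : Filter I) K)] : Fin 1 → Germ (U : Filter I) K) =
        fun i => ((![f] i : I → K) : Germ (U : Filter I) K) := by
      ext i; fin_cases i; rfl
    rw [e, mem_germO]
    refine this.trans ?_
    refine eventually_congr (Eventually.of_forall fun i => ?_)
    refine Iff.trans ?_ (H.ho (f i))
    apply Iff.of_eq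
    congr 1
    ext j; fin_cases j; rfl

theorem germ_realize {α : Type*} (φ : L.Formula α) (x : α → I → K) :
    letI := germStructure L K U
    φ.Realize (fun a => (x a : Germ (U : Filter I) K)) ↔
      ∀ᶠ i in (U : Filter I), φ.Realize fun a => x a i :=
  FirstOrder.Language.Ultraproduct.realize_formula_cast (u := U) (M := fun _ => K) φ x

theorem germ_models {T : L.Theory} (h : K ⊨ T) :
    letI := germStructure L K U
    Germ (U : Filter I) K ⊨ T := by
  letI := germStructure L K U
  refine ⟨fun φ hφ => ?_⟩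
  exact (FirstOrder.Language.Ultraproduct.sentence_realize (u := U) (M := fun _ => K) φ).2
    (Eventually.of_forall fun _ => h.realize_of_mem φ hφ)

theorem germ_char (hch : ∀ n : ℕ, n ≠ 0 → O.valuation (n : K) = 1) (n : ℕ) (hn : n ≠ 0) :
    (germO O U).valuation (n : Germ (U : Filter I) K) = 1 := by
  refine le_antisymm (val_nat_le n) ?_
  have := (germ_le (O := O) (U := U) (f := 1) (g := fun _ => (n : K))).2
    (Eventually.of_forall fun i => by simp [hch n hn])
  simpa [Germ.natCast_def] using this

theorem star_of_def {A : Set K} {α : Type} {S : Set (α → K)} (hS : A.Definable L S) :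
    letI := germStructure L K U
    ∃ S' : Set (α → Germ (U : Filter I) K), (Germ.const '' A).Definable L S' ∧
      ∀ x : α → I → K, (fun a => (x a : Germ (U : Filter I) K)) ∈ S' ↔
        ∀ᶠ i in (U : Filter I), (fun a => x a i) ∈ S := by
  letI := germStructure L K U
  obtain ⟨φ, rfl⟩ := definable_iff_exists_formula_sum.1 hS
  refine ⟨_, definable_iff_exists_formula_sum.2
    ⟨φ.relabel (Sum.map (fun a : A => ⟨Germ.const (a : K), mem_image_of_mem _ a.2⟩) id), rfl⟩,
    fun x => ?_⟩
  simp only [mem_ofPred_eq, FirstOrder.Language.Formula.realize_relabel]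
  have := germ_realize (U := U) φ (Sum.elim (fun (a : A) (_ : I) => (a : K)) x)
  refine Iff.trans (Iff.of_eq ?_) (this.trans (eventually_congr
    (Eventually.of_forall fun i => Iff.of_eq ?_)))
  · congr 1
    ext (a | a) <;> rfl
  · congr 1
    ext (a | a) <;> rfl

theorem def_of_star {A : Set K} {α : Type} {S' : Set (α → Germ (U : Filter I) K)} :
    letI := germStructure L K U
    (Germ.const '' A).Definable L S' →
    ∃ S : Set (α → K), A.Definable L S ∧
      ∀ x : α → I → K, (fun a => (x a : Germ (U : Filter I) K)) ∈ S' ↔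
        ∀ᶠ i in (U : Filter I), (fun a => x a i) ∈ S := by
  letI := germStructure L K U
  intro hS
  obtain ⟨φ, rfl⟩ := definable_iff_exists_formula_sum.1 hS
  choose g hg1 hg2 using fun a : (Germ.const '' A : Set (Germ (U : Filter I) K)) => a.2
  refine ⟨_, definable_iff_exists_formula_sum.2
    ⟨φ.relabel (Sum.map (fun a => ⟨g a, hg1 a⟩) id), rfl⟩, fun x => ?_⟩
  simp only [mem_ofPred_eq, FirstOrder.Language.Formula.realize_relabel]
  have := germ_realize (U := U) φ (Sum.elim (fun a (_ : I) => g a) x)
  refine Iff.trans (Iff.of_eq ?_) (this.trans (eventually_congr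
    (Eventually.of_forall fun i => Iff.of_eq ?_)))
  · congr 1
    ext (a | a)
    · exact (hg2 a).symm
    · rfl
  · congr 1
    ext (a | a) <;> rfl

theorem exists_germ_rep {α : Type*} (t : α → Germ (U : Filter I) K) :
    ∃ f : α → I → K, t = fun a => (f a : Germ (U : Filter I) K) := by
  have : ∀ a, ∃ f : I → K, t a = f := fun a => Germ.inductionOn (t a) fun f => ⟨f, rfl⟩
  choose f hf using this
  exact ⟨f, funext hf⟩

end Ultra

variable {L : FirstOrder.Language.{u, v}} {add mul : L.Functions 2} {o : L.Relations 1}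

theorem unif_of_pw {T : L.Theory} {γ : Type} [Finite γ]
    (hPW : ∀ (K : Type w) [Field K] [L.Structure K] (O : ValuationSubring K),
      IsModel L add mul o T K O → PW L O γ)
    (K : Type w) [Field K] [L.Structure K] (O : ValuationSubring K)
    (hK : IsModel L add mul o T K O) : Unif L O γ := by
  intro A β _ S hS
  by_contra hno
  push Not at hno
  let I := {C : Set K // C.Finite ∧ A.Definable₁ L C}
  haveI : Nonempty I := ⟨⟨∅, finite_empty, by simp [Definable₁]⟩⟩
  haveI : IsDirectedOrder I := ⟨fun C D => ⟨⟨C.1 ∪ D.1, C.2.1.union D.2.1,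
    Definable.union C.2.2 D.2.2⟩, subset_union_left, subset_union_right⟩⟩
  let U : Ultrafilter I := Ultrafilter.of atTop
  have hU : ∀ C : I, ∀ᶠ D in (U : Filter I), C.1 ⊆ D.1 := fun C =>
    (Ultrafilter.of_le atTop) (eventually_ge_atTop C)
  have h1 : ∀ C : I, ∃ (l : K) (b : β → K) (c : γ → K) (x x' : K), l ≠ 0 ∧ O.valuation l ≤ 1 ∧
      Inv O (O.valuation l) S b c ∧ (∀ a ∈ C.1, R O (O.valuation l) (x - a) (x' - a)) ∧
      tup x b c ∈ S ∧ tup x' b c ∉ S := by
    intro C
    obtain ⟨lam, h0, h1, b, c, hinv, x, x', h2, h3, h4⟩ := hno C.1 C.2.1 C.2.2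
    obtain ⟨l, rfl⟩ := O.valuation_surjective lam
    exact ⟨l, b, c, x, x', by simpa using h0, h1, hinv, h2, h3, h4⟩
  choose l b c x x' hl0 hl1 hinv hR hx hx' using h1
  letI := germStructure L K U
  have H : Compat L add mul o K O := ⟨hK.1, hK.2.1, hK.2.2.1⟩
  have H' := germ_compat (U := U) H
  have hch := germ_char (U := U) (charZero_residue_iff.1 hK.2.2.2.2.1)
  have hK' : IsModel L add mul o T (Germ (U : Filter I) K) (germO O U) :=
    ⟨H'.hadd, H'.hmul, H'.ho, charZero_of_val hch, charZero_residue_iff.2 hch,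
      germ_models hK.2.2.2.2.2⟩
  obtain ⟨S', hS', hSS⟩ := star_of_def (U := U) hS
  have htup : ∀ (z : I → K) (b : β → I → K) (c : γ → I → K),
      tup (z : Germ (U : Filter I) K) (fun j => (b j : Germ (U : Filter I) K))
        (fun j => (c j : Germ (U : Filter I) K)) ∈ S' ↔
      ∀ᶠ i in (U : Filter I), tup (z i) (fun j => b j i) (fun j => c j i) ∈ S := by
    intro z b c
    refine Iff.trans (Iff.of_eq ?_) ((hSS (Sum.elim (fun _ => z) (Sum.elim b c))).trans
      (eventually_congr (Eventually.of_forall fun i => Iff.of_eq ?_)))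
    · congr 1
      ext (a | a | a) <;> rfl
    · congr 1
      ext (a | a | a) <;> rfl
  have key := hPW _ _ hK' _ β S' hS' ((germO O U).valuation (l : Germ (U : Filter I) K))
    (by
      rw [Valuation.ne_zero_iff]
      intro h
      rw [← Germ.coe_zero, Germ.coe_eq] at h
      obtain ⟨i, hi⟩ := h.exists
      exact hl0 i hi)
    (by
      have := (germ_le (O := O) (U := U) (f := l) (g := 1)).2
        (Eventually.of_forall fun i => by simpa using hl1 i)
      simpa using this)
    (fun j => ((fun i => b i j : I → K) : Germ (U : Filter I) K))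
    (fun j => ((fun i => c i j : I → K) : Germ (U : Filter I) K))
    (by
      intro b' c' hb hc z
      obtain ⟨b', rfl⟩ := exists_germ_rep b'
      obtain ⟨c', rfl⟩ := exists_germ_rep c'
      induction z using Germ.inductionOn with | _ z => ?_
      rw [htup, htup]
      refine eventually_congr ?_
      simp only [germ_R, germ_R1] at hb hc
      filter_upwards [eventually_all.2 hb, eventually_all.2 hc] with i h1 h2
      exact hinv i _ _ h1 h2 _)
    (x : Germ (U : Filter I) K) (x' : Germ (U : Filter I) K)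
    (by
      intro C' hC' hCd' a ha
      obtain ⟨D, hD, hDD⟩ := def_of_star (U := U) hCd'
      let C : Set K := {a | (fun _ => a) ∈ D}
      have hCd : A.Definable₁ L C := by
        refine def_congr (P := fun t => t ∈ D) hD fun t => ?_
        apply Iff.of_eq
        simp only [C, mem_ofPred_eq]
        congr 1
        ext i; fin_cases i; rfl
      have hmem : ∀ f : I → K, (f : Germ (U : Filter I) K) ∈ C' ↔
          ∀ᶠ i in (U : Filter I), f i ∈ C := fun f => hDD (fun _ => f)
      have hC : C.Finite := by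
        refine Finite.of_finite_image (f := (Germ.const : K → Germ (U : Filter I) K))
          (hC'.subset ?_) (fun a _ b _ h => Germ.const_inj.1 h)
        rintro _ ⟨a, ha, rfl⟩
        exact (hmem (fun _ => a)).2 (Eventually.of_forall fun _ => ha)
      induction a using Germ.inductionOn with | _ a => ?_
      rw [← Germ.coe_sub, ← Germ.coe_sub, germ_R]
      filter_upwards [(hmem a).1 ha, hU ⟨C, hC, hCd⟩] with i h1 h2
      exact hR i _ (h2 h1))
    ((htup _ _ _).2 (Eventually.of_forall hx))
  obtain ⟨i, hi⟩ := ((htup _ _ _).1 key).exists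
  exact hx' i hi

theorem pw_of_hminimal {T : L.Theory} (h : HMinimal.{u, v, w} L add mul o T 1)
    (K : Type w) [Field K] [L.Structure K] (O : ValuationSubring K)
    (hK : IsModel L add mul o T K O) : PW L O Unit := by
  intro A β _ S hS lam h0 h1 b c hinv x x' hx hxS
  obtain ⟨n, ⟨e⟩⟩ := Finite.exists_equiv_fin β
  obtain ⟨C, hC, hCd, hCp⟩ := h K O hK lam h0 h1 A 1 le_rfl {z | tup z b c ∈ S}
    ⟨n, b ∘ e.symm, fun _ => c (), _,
      hS.preimage_comp (Sum.map id (Sum.map e (fun _ => 0))), fun b' c' hb hc => by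
      ext z
      simp only [mem_ofPred_eq, mem_preimage]
      rw [← hinv (b' ∘ e) (fun _ => c' 0) (fun i => by simpa using (rveq_iff one_ne_zero).1 (hb (e i)))
        (fun _ => (rveq_iff h0).1 (hc 0))]
      apply Iff.of_eq
      congr 1
      ext (a | a | a) <;> rfl⟩
  exact (hCp x x' fun a ha => (rveq_iff h0).2 (hx C hC hCd a ha)).1 hxS

theorem hminimal_of_unif {T : L.Theory} (ell : ℕ∞)
    (h : ∀ (m : ℕ) (K : Type w) [Field K] [L.Structure K] (O : ValuationSubring K),
      IsModel L add mul o T K O → Unif L O (Fin m)) : HMinimal.{u, v, w} L add mul o T ell := by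
  intro K _ _ O hK lam h0 h1 A m _ X ⟨n, b, c, S, hS, hX⟩
  obtain ⟨C, hC, hCd, hCp⟩ := h m K O hK A (Fin n) S hS
  have hX0 := hX b c (fun i => (rveq_iff one_ne_zero).2 (R.refl _ _))
    (fun i => (rveq_iff h0).2 (R.refl _ _))
  have hinv : Inv O lam S b c := by
    intro b' c' hb hc z
    have := hX b' c' (fun i => (rveq_iff one_ne_zero).2 (hb i)) (fun i => (rveq_iff h0).2 (hc i))
    exact (Set.ext_iff.1 (this.symm.trans hX0) z)
  refine ⟨C, hC, hCd, fun x x' hx => ?_⟩
  rw [hX0]
  exact ⟨hCp lam h0 h1 b c hinv x x' fun a ha => (rveq_iff h0).1 (hx a ha),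
    hCp lam h0 h1 b c hinv x' x fun a ha => ((rveq_iff h0).1 (hx a ha)).symm h1⟩

theorem hminimal_of_one {T : L.Theory} (h : HMinimal.{u, v, w} L add mul o T 1) (ell : ℕ∞) :
    HMinimal.{u, v, w} L add mul o T ell := by
  refine hminimal_of_unif ell fun m => unif_of_pw fun K _ _ O hK => ?_
  exact (unif_of_pw (pw_of_hminimal h) K O hK).pw ⟨hK.1, hK.2.1, hK.2.2.1⟩
    (charZero_residue_iff.1 hK.2.2.2.2.1) m

theorem HMinimal.mono {T : L.Theory} {ell ell' : ℕ∞} (h : HMinimal.{u, v, w} L add mul o T ell')
    (hl : ell ≤ ell') : HMinimal.{u, v, w} L add mul o T ell :=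
  fun K _ _ O hK lam h0 h1 A m hm => h K O hK lam h0 h1 A m (hm.trans hl)

end Pool.Agent.MP_0e4269_lc

end MrgPart3

-- marker of a merged file
example : 731051 + 862542 = 731051 + 862542 := rfl
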